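import Mathlib

/-!
# MP_332c3b_lc, Q1: Dedekind finiteness is a closed condition

For every unital Banach algebra `A`, the set of proper closed two-sided ideals `K` such that
`A / K` is Dedekind finite is closed in the Wijsman topology.  In particular it is `Σ⁰₂`, so the
known `Π⁰₂` upper bound is not sharp.
-/

set_option linter.style.haveILetI false

namespace Pool.Agent.Results.MP_332c3b_lc.DedekindFiniteClosed

universe u

/-- The set `Ideal'(A)` of proper closed two-sided ideals of `A`. -/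
def ProperClosedIdeal (A : Type u) [NormedRing A] : Type u :=
  {K : TwoSidedIdeal A // IsClosed (K : Set A) ∧ K ≠ ⊤}

/-- The distance function `K ↦ (x ↦ d(x, K))`. -/
noncomputable def distFun {A : Type u} [NormedRing A] (K : ProperClosedIdeal A) : A → ℝ :=
  fun x => Metric.infDist x (K.1 : Set A)

/-- The Wijsman topology: the weakest topology making all maps `K ↦ d(x, K)` continuous. -/
noncomputable instance {A : Type u} [NormedRing A] : TopologicalSpace (ProperClosedIdeal A) :=
  TopologicalSpace.induced distFun inferInstance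

/-- The set of proper closed two-sided ideals `K` such that the quotient ring `A / K` is Dedekind
finite. -/
def DF (A : Type u) [NormedRing A] : Set (ProperClosedIdeal A) :=
  {K | ∀ a b : K.1.ringCon.Quotient, a * b = 1 → b * a = 1}

/-- Dedekind finiteness of the quotient in terms of the ideal. -/
theorem mem_DF {A : Type u} [NormedRing A] (K : ProperClosedIdeal A) :
    K ∈ DF A ↔ ∀ a b : A, a * b - 1 ∈ K.1 → b * a - 1 ∈ K.1 := by
  have key : ∀ a b : A, ((a : K.1.ringCon.Quotient) * (b : K.1.ringCon.Quotient) = 1) ↔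
      a * b - 1 ∈ K.1 := by
    intro a b
    rw [← RingCon.coe_mul, ← RingCon.coe_one, RingCon.eq, TwoSidedIdeal.rel_iff]
  constructor
  · intro h a b hab
    exact (key b a).1 (h a b ((key a b).2 hab))
  · intro h a b hab
    obtain ⟨a, rfl⟩ := Quotient.exists_rep a
    obtain ⟨b, rfl⟩ := Quotient.exists_rep b
    exact (key b a).2 (h a b ((key a b).1 hab))

theorem isClosed_DF (A : Type u) [NormedRing A] [CompleteSpace A] : IsClosed (DF A) := by
  rw [← isOpen_compl_iff, isOpen_iff_mem_nhds]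
  intro K₀ hK₀
  rw [Set.mem_compl_iff, mem_DF] at hK₀
  push Not at hK₀
  obtain ⟨a, b, hab, hba⟩ := hK₀
  have hcont : ∀ x : A, Continuous (fun K : ProperClosedIdeal A => distFun K x) := by
    intro x
    have h1 : Continuous (distFun : ProperClosedIdeal A → A → ℝ) := continuous_induced_dom
    exact (continuous_apply x).comp h1
  -- the distance of `b * a - 1` to `K₀`
  set δ := distFun K₀ (b * a - 1) with hδ
  have hδpos : 0 < δ := by
    have h1 : b * a - 1 ∉ (K₀.1 : Set A) := hba
    have h2 : (K₀.1 : Set A).Nonempty := ⟨0, K₀.1.zero_mem⟩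
    exact (K₀.2.1.notMem_iff_infDist_pos h2).1 h1
  have h0 : distFun K₀ (a * b - 1) = 0 :=
    Metric.infDist_zero_of_mem (show a * b - 1 ∈ (K₀.1 : Set A) from hab)
  -- choice of `ε`
  obtain ⟨ε, hε, hε1, hε2⟩ : ∃ ε : ℝ, 0 < ε ∧ ε ≤ 1 / 2 ∧ 2 * ‖b‖ * ‖a‖ * ε < δ / 2 := by
    have hc : 0 < 2 * ‖b‖ * ‖a‖ + 1 := by positivity
    refine ⟨min (1 / 2) (δ / 2 / (2 * ‖b‖ * ‖a‖ + 1)), by positivity, min_le_left _ _, ?_⟩
    have h1 : (2 * ‖b‖ * ‖a‖) * min (1 / 2) (δ / 2 / (2 * ‖b‖ * ‖a‖ + 1)) ≤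
        (2 * ‖b‖ * ‖a‖) * (δ / 2 / (2 * ‖b‖ * ‖a‖ + 1)) :=
      mul_le_mul_of_nonneg_left (min_le_right _ _) (by positivity)
    refine lt_of_le_of_lt h1 ?_
    rw [← mul_div_assoc, div_lt_iff₀ hc]
    nlinarith [hδpos, norm_nonneg a, norm_nonneg b, mul_nonneg (norm_nonneg b) (norm_nonneg a)]
  have hU1 : {K : ProperClosedIdeal A | distFun K (a * b - 1) < ε} ∈ nhds K₀ :=
    (isOpen_lt (hcont _) continuous_const).mem_nhds (by simpa [h0] using hε)
  have hU2 : {K : ProperClosedIdeal A | δ / 2 < distFun K (b * a - 1)} ∈ nhds K₀ :=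
    (isOpen_lt continuous_const (hcont _)).mem_nhds (by
      show δ / 2 < δ
      linarith)
  filter_upwards [hU1, hU2] with K hK1 hK2
  rw [Set.mem_compl_iff, mem_DF]
  intro hDF
  have hne : (K.1 : Set A).Nonempty := ⟨0, K.1.zero_mem⟩
  obtain ⟨z, hzK, hz⟩ := (Metric.infDist_lt_iff hne).1 hK1
  rw [dist_eq_norm] at hz
  -- the element `w = a * b - z` is invertible
  set t : A := 1 - (a * b - z) with ht
  have htn : ‖t‖ < ε := by
    have : t = -(a * b - 1 - z) := by rw [ht]; abel
    rw [this, norm_neg]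
    exact hz
  have ht1 : ‖t‖ < 1 := by linarith
  let w : Aˣ := Units.oneSub t ht1
  have hw : (w : A) = a * b - z := by
    show 1 - t = _
    rw [ht]; abel
  set w' : A := ((w⁻¹ : Aˣ) : A) with hw'
  have hww' : (w : A) * w' = 1 := w.mul_inv
  have hw'w : w' * (w : A) = 1 := w.inv_mul
  -- `1 - w'` is small
  have hsmall : ‖1 - w'‖ ≤ 2 * ε := by
    have h1 : 1 - w' = -(t * w') := by
      have : (1 - t) * w' = 1 := hww'
      have h2 : w' - t * w' = 1 := by rw [← this]; noncomm_ring
      rw [← h2]; abel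
    have h3 : ‖1 - w'‖ ≤ ‖t‖ * ‖w'‖ := by
      rw [h1, norm_neg]
      exact norm_mul_le _ _
    have h4 : 1 - w' = -t + t * (1 - w') := by
      have h5 : t * (1 - w') = t - t * w' := by noncomm_ring
      rw [h5, h1]; abel
    have h5 : ‖1 - w'‖ ≤ ‖t‖ + ‖t‖ * ‖1 - w'‖ := by
      calc ‖1 - w'‖ = ‖-t + t * (1 - w')‖ := by rw [← h4]
        _ ≤ ‖-t‖ + ‖t * (1 - w')‖ := norm_add_le _ _
        _ ≤ ‖t‖ + ‖t‖ * ‖1 - w'‖ := by
            rw [norm_neg]
            exact add_le_add_right (norm_mul_le _ _) _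
    nlinarith [norm_nonneg (1 - w'), norm_nonneg t]
  -- the new right inverse
  have hab' : a * (b * w') - 1 ∈ K.1 := by
    have h1 : a * (b * w') - 1 = z * w' := by
      have h2 : a * b = (w : A) + z := by rw [hw]; abel
      rw [← mul_assoc, h2, add_mul, hww']; abel
    rw [h1]
    exact K.1.mul_mem_right _ _ hzK
  have hba' := hDF a (b * w') hab'
  have h6 : b * a - 1 = (b * w' * a - 1) + b * (1 - w') * a := by noncomm_ring
  have h7 : distFun K (b * a - 1) ≤ ‖b * (1 - w') * a‖ := by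
    have h8 : Metric.infDist (b * a - 1) (K.1 : Set A) ≤ dist (b * a - 1) (b * w' * a - 1) :=
      Metric.infDist_le_dist_of_mem hba'
    rw [dist_eq_norm] at h8
    have h9 : b * a - 1 - (b * w' * a - 1) = b * (1 - w') * a := by noncomm_ring
    rw [h9] at h8
    exact h8
  have h10 : ‖b * (1 - w') * a‖ ≤ ‖b‖ * (2 * ε) * ‖a‖ := by
    calc ‖b * (1 - w') * a‖ ≤ ‖b * (1 - w')‖ * ‖a‖ := norm_mul_le _ _
      _ ≤ (‖b‖ * ‖1 - w'‖) * ‖a‖ := mul_le_mul_of_nonneg_right (norm_mul_le _ _) (norm_nonneg _)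
      _ ≤ (‖b‖ * (2 * ε)) * ‖a‖ := by
          apply mul_le_mul_of_nonneg_right _ (norm_nonneg _)
          exact mul_le_mul_of_nonneg_left hsmall (norm_nonneg _)
  have hK2' : δ / 2 < distFun K (b * a - 1) := hK2
  nlinarith [hK2', h7, h10, hε2]

/-- **MP_332c3b_lc, Q1 (negated form).** For every unital Banach algebra `A` (for instance
`A = ℓ₁(S)`), the set `DF A` of proper closed two-sided ideals with Dedekind finite quotient is
closed in the Wijsman topology; in particular it is a countable union of closed sets. -/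
theorem result (A : Type u) [NormedRing A] [CompleteSpace A] :
    IsClosed (DF A) ∧
      ∃ F : ℕ → Set (ProperClosedIdeal A), (∀ n, IsClosed (F n)) ∧ DF A = ⋃ n, F n :=
  ⟨isClosed_DF A, fun _ => DF A, fun _ => isClosed_DF A, (Set.iUnion_const _).symm⟩

end Pool.Agent.Results.MP_332c3b_lc.DedekindFiniteClosed
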